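import Mathlib
import Pool.Agent.H34C.Upper

/-! The minimum number of circles determined by `n` points, not all on a line and not all on a
circle, for every `n ≥ 15`. -/

namespace Pool.Agent.Results.MP_1f1ca1_co.MinimumFromFifteen

/-- The circles of the plane (spheres of positive radius) that contain at least three points
of `P`. -/
def circles (P : Set (EuclideanSpace ℝ (Fin 2))) : Set (Set (EuclideanSpace ℝ (Fin 2))) :=
  {C | (∃ (c : EuclideanSpace ℝ (Fin 2)) (r : ℝ), 0 < r ∧ C = Metric.sphere c r) ∧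
    3 ≤ (P ∩ C).ncard}

/-- `P` is neither contained in a line nor in a circle. -/
def Admissible (P : Set (EuclideanSpace ℝ (Fin 2))) : Prop :=
  ¬ Collinear ℝ P ∧ ¬ ∃ (c : EuclideanSpace ℝ (Fin 2)) (r : ℝ), 0 < r ∧ P ⊆ Metric.sphere c r

/-- For every `n ≥ 15` (in particular for `15 ≤ n ≤ 393`) the minimum number of circles
determined by an admissible set of `n` points is `C(n-1, 2) + 1 - ⌊(n-1)/2⌋`. -/
theorem result (n : ℕ) (hn : 15 ≤ n) :
    IsLeast {k : ℕ | ∃ P : Finset (EuclideanSpace ℝ (Fin 2)), P.card = n ∧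
      Admissible (P : Set (EuclideanSpace ℝ (Fin 2))) ∧
      (circles (P : Set (EuclideanSpace ℝ (Fin 2)))).ncard = k}
      ((n - 1).choose 2 + 1 - (n - 1) / 2) := by
  obtain ⟨N, rfl⟩ : ∃ N, n = N + 1 := ⟨n - 1, by omega⟩
  have hA := H34C.Upper.arith N (by omega)
  have hle : N / 2 ≤ N.choose 2 := by
    have h1 := Finset.card_le_card (H34C.Upper.Pairs_subset N)
    rw [H34C.Upper.card_Pairs, Finset.card_powersetCard, H34C.Upper.card_S] at h1
    exact h1
  have hval : (N + 1 - 1).choose 2 + 1 - (N + 1 - 1) / 2 = (N - 1) ^ 2 / 2 + 1 := by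
    rw [Nat.add_sub_cancel]
    omega
  have hlow : ∀ P : Finset (EuclideanSpace ℝ (Fin 2)), P.card = N + 1 →
      Admissible (P : Set (EuclideanSpace ℝ (Fin 2))) →
      (N - 1) ^ 2 / 2 + 1 ≤ (circles (P : Set (EuclideanSpace ℝ (Fin 2)))).ncard := by
    intro P hP hadm
    have := Helper543.PlaneC.lower P (by omega) hadm
    rw [hP] at this
    have e : N + 1 - 2 = N - 1 := by omega
    rw [e] at this
    exact this
  rw [hval]
  constructor
  · refine ⟨H34C.Upper.P N, H34C.Upper.card_P N, H34C.Upper.admissible N (by omega), ?_⟩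
    apply le_antisymm
    · rw [← hA]
      exact H34C.Upper.ncard_le N
    · exact hlow _ (H34C.Upper.card_P N) (H34C.Upper.admissible N (by omega))
  · rintro k ⟨P, hP, hadm, rfl⟩
    exact hlow P hP hadm

end Pool.Agent.Results.MP_1f1ca1_co.MinimumFromFifteen
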